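import Mathlib
import Pool.Agent.H759R2.Kad.Props6

open scoped ComplexOrder InnerProductSpace ComplexConjugate
open Finset

noncomputable section

namespace H759R2.Kad

universe u v

namespace CancP

variable {A : Type u} [CStarAlgebra A]

theorem mul_init {w q : A} (hq : Prj q) (hw : star w * w = q) : w * q = w := by
  have h0 : star (w - w * q) * (w - w * q) = 0 := by
    rw [star_sub, star_mul, hq.1, sub_mul, mul_sub, mul_sub, hw]
    rw [show star w * (w * q) = q * q by rw [← mul_assoc, hw],
      show q * star w * w = q * q by rw [mul_assoc, hw],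
      show q * star w * (w * q) = q * q * q by rw [mul_assoc, ← mul_assoc (star w), hw, mul_assoc],
      hq.2, hq.2]
    simp
  have h1 := CStarRing.star_mul_self_eq_zero_iff (w - w * q) |>.1 h0
  exact (sub_eq_zero.1 h1).symm

theorem key {s v g w : A} (hs : Prj s) (hF : Fnt s) (hv : PIs v) (hsv : s * v = v)
    (hvs : v * s = v) (hg : CPrj g) (hw : star w * w = g * (s - star v * v))
    (hw2 : g * (s - v * star v) * w = w) :
    w * star w = g * (s - v * star v) := by
  obtain ⟨⟨hgs, hgg⟩, hgc⟩ := hg
  have hPI : v * star v * v = v := hv
  have hPI' : star v * v * star v = star v := by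
    have := congrArg star hPI
    simpa [star_mul, mul_assoc] using this
  have hsv' : star v * s = star v := by
    have := congrArg star hsv
    simpa [star_mul, hs.1] using this
  have hvs' : s * star v = star v := by
    have := congrArg star hvs
    simpa [star_mul, hs.1] using this
  have hse : s * (star v * v) = star v * v := by rw [← mul_assoc, hvs']
  have hes : star v * v * s = star v * v := by rw [mul_assoc, hvs]
  have hsf : s * (v * star v) = v * star v := by rw [← mul_assoc, hsv]
  have hfs : v * star v * s = v * star v := by rw [mul_assoc, hsv']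
  have hee : star v * v * (star v * v) = star v * v := by rw [← mul_assoc, hPI']
  have hff : v * star v * (v * star v) = v * star v := by rw [← mul_assoc, hPI]
  have hg1 : (1 - g) * g = 0 := by rw [sub_mul, one_mul, hgg, sub_self]
  have hg1' : g * (1 - g) = 0 := by rw [mul_sub, mul_one, hgg, sub_self]
  have hgg1 : (1 - g) * (1 - g) = 1 - g := by rw [mul_sub, mul_one, hg1, sub_zero]
  have hc1 : ∀ a, (1 - g) * a = a * (1 - g) := by
    intro a; rw [sub_mul, mul_sub, one_mul, mul_one, hgc]
  -- q is a projection
  have hq : Prj (g * (s - star v * v)) := by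
    constructor
    · rw [star_mul, star_sub, hs.1, star_mul, star_star, hgs, hgc]
    · have h1 : (s - star v * v) * (s - star v * v) = s - star v * v := by
        rw [sub_mul, mul_sub, mul_sub, hs.2, hse, hes, hee]; abel
      calc g * (s - star v * v) * (g * (s - star v * v))
          = g * ((s - star v * v) * g) * (s - star v * v) := by simp only [mul_assoc]
        _ = g * (g * (s - star v * v)) * (s - star v * v) := by rw [← hgc (s - star v * v)]
        _ = g * g * ((s - star v * v) * (s - star v * v)) := by simp only [mul_assoc]
        _ = g * (s - star v * v) := by rw [hgg, h1]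
  have wq : w * (g * (s - star v * v)) = w := mul_init hq hw
  have gw : g * w = w := by
    calc g * w = g * (g * (s - v * star v) * w) := by rw [hw2]
      _ = g * g * (s - v * star v) * w := by simp only [mul_assoc]
      _ = w := by rw [hgg, hw2]
  have wg : w * g = w := by rw [← hgc]; exact gw
  have sw : s * w = w := by
    calc s * w = s * (g * (s - v * star v) * w) := by rw [hw2]
      _ = (s * g) * (s - v * star v) * w := by simp only [mul_assoc]
      _ = g * (s * (s - v * star v)) * w := by rw [← hgc s]; simp only [mul_assoc]
      _ = w := by rw [mul_sub, hs.2, hsf, hw2]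
  have fw : v * star v * w = 0 := by
    calc v * star v * w = v * star v * (g * (s - v * star v) * w) := by rw [hw2]
      _ = (v * star v * g) * (s - v * star v) * w := by simp only [mul_assoc]
      _ = g * (v * star v * (s - v * star v)) * w := by
          rw [← hgc (v * star v)]; simp only [mul_assoc]
      _ = 0 := by rw [mul_sub, hfs, hff, sub_self, mul_zero, zero_mul]
  have vw : star v * w = 0 := by
    calc star v * w = star v * v * star v * w := by rw [hPI']
      _ = star v * (v * star v * w) := by simp only [mul_assoc]
      _ = 0 := by rw [fw, mul_zero]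
  have we : w * (star v * v) = 0 := by
    calc w * (star v * v) = w * (g * (s - star v * v)) * (star v * v) := by rw [wq]
      _ = w * (g * ((s - star v * v) * (star v * v))) := by simp only [mul_assoc]
      _ = 0 := by rw [sub_mul, hse, hee, sub_self, mul_zero, mul_zero]
  have wv : w * star v = 0 := by
    calc w * star v = w * (star v * v * star v) := by rw [hPI']
      _ = w * (star v * v) * star v := by simp only [mul_assoc]
      _ = 0 := by rw [we, zero_mul]
  have vw' : star w * v = 0 := by
    have := congrArg star vw
    simpa [star_mul] using this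
  have wv' : v * star w = 0 := by
    have := congrArg star wv
    simpa [star_mul] using this
  have w1g : w * (1 - g) = 0 := by rw [mul_sub, mul_one, wg, sub_self]
  have gw1 : (1 - g) * w = 0 := by rw [sub_mul, one_mul, gw, sub_self]
  have w1g' : (1 - g) * star w = 0 := by
    have h1 := congrArg star w1g
    rw [star_mul, star_sub, star_one, hgs, star_zero] at h1
    exact h1
  have gw1' : star w * (1 - g) = 0 := by rw [← hc1]; exact w1g'
  have hstar : star (g * v + w + (1 - g) * s) = g * star v + star w + (1 - g) * s := by
    rw [star_add, star_add, star_mul, star_mul, star_sub, star_one, hgs, hs.1, ← hgc (star v),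
      ← hc1 s]
  -- first product
  have hu : star (g * v + w + (1 - g) * s) * (g * v + w + (1 - g) * s) = s := by
    have t11 : g * star v * (g * v) = g * (star v * v) := by
      calc g * star v * (g * v) = g * (star v * g) * v := by simp only [mul_assoc]
        _ = g * (g * star v) * v := by rw [← hgc (star v)]
        _ = g * g * (star v * v) := by simp only [mul_assoc]
        _ = g * (star v * v) := by rw [hgg]
    have t12 : g * star v * w = 0 := by rw [mul_assoc, vw, mul_zero]
    have t13 : g * star v * ((1 - g) * s) = 0 := by
      calc g * star v * ((1 - g) * s) = g * (star v * (1 - g)) * s := by simp only [mul_assoc]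
        _ = g * ((1 - g) * star v) * s := by rw [← hc1 (star v)]
        _ = g * (1 - g) * star v * s := by simp only [mul_assoc]
        _ = 0 := by rw [hg1']; simp
    have t21 : star w * (g * v) = 0 := by
      calc star w * (g * v) = star w * (v * g) := by rw [hgc v]
        _ = star w * v * g := by simp only [mul_assoc]
        _ = 0 := by rw [vw', zero_mul]
    have t23 : star w * ((1 - g) * s) = 0 := by rw [← mul_assoc, gw1', zero_mul]
    have t31 : (1 - g) * s * (g * v) = 0 := by
      calc (1 - g) * s * (g * v) = (1 - g) * (s * g) * v := by simp only [mul_assoc]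
        _ = (1 - g) * (g * s) * v := by rw [← hgc s]
        _ = (1 - g) * g * (s * v) := by simp only [mul_assoc]
        _ = 0 := by rw [hg1, zero_mul]
    have t32 : (1 - g) * s * w = 0 := by rw [mul_assoc, sw, gw1]
    have t33 : (1 - g) * s * ((1 - g) * s) = (1 - g) * s := by
      calc (1 - g) * s * ((1 - g) * s) = (1 - g) * (s * (1 - g)) * s := by simp only [mul_assoc]
        _ = (1 - g) * ((1 - g) * s) * s := by rw [← hc1 s]
        _ = (1 - g) * (1 - g) * (s * s) := by simp only [mul_assoc]
        _ = (1 - g) * s := by rw [hgg1, hs.2]
    rw [hstar]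
    simp only [add_mul, mul_add, t11, t12, t13, t21, t23, t31, t32, t33, hw]
    rw [mul_sub, sub_mul, one_mul]
    abel
  have hsu : s * (g * v + w + (1 - g) * s) = g * v + w + (1 - g) * s := by
    rw [mul_add, mul_add, sw]
    have h1 : s * (g * v) = g * v := by rw [← mul_assoc, ← hgc s, mul_assoc, hsv]
    have h2 : s * ((1 - g) * s) = (1 - g) * s := by
      rw [← mul_assoc, ← hc1 s, mul_assoc, hs.2]
    rw [h1, h2]
  have huu := hF _ hu hsu
  have t11 : g * v * (g * star v) = g * (v * star v) := by
    calc g * v * (g * star v) = g * (v * g) * star v := by simp only [mul_assoc]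
      _ = g * (g * v) * star v := by rw [← hgc v]
      _ = g * g * (v * star v) := by simp only [mul_assoc]
      _ = g * (v * star v) := by rw [hgg]
  have t12 : g * v * star w = 0 := by rw [mul_assoc, wv', mul_zero]
  have t13 : g * v * ((1 - g) * s) = 0 := by
    calc g * v * ((1 - g) * s) = g * (v * (1 - g)) * s := by simp only [mul_assoc]
      _ = g * ((1 - g) * v) * s := by rw [← hc1 v]
      _ = g * (1 - g) * v * s := by simp only [mul_assoc]
      _ = 0 := by rw [hg1']; simp
  have t21 : w * (g * star v) = 0 := by
    calc w * (g * star v) = w * (star v * g) := by rw [hgc (star v)]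
      _ = w * star v * g := by simp only [mul_assoc]
      _ = 0 := by rw [wv, zero_mul]
  have t23 : w * ((1 - g) * s) = 0 := by rw [← mul_assoc, w1g, zero_mul]
  have t31 : (1 - g) * s * (g * star v) = 0 := by
    calc (1 - g) * s * (g * star v) = (1 - g) * (s * g) * star v := by simp only [mul_assoc]
      _ = (1 - g) * (g * s) * star v := by rw [← hgc s]
      _ = (1 - g) * g * (s * star v) := by simp only [mul_assoc]
      _ = 0 := by rw [hg1, zero_mul]
  have t32 : (1 - g) * s * star w = 0 := by
    calc (1 - g) * s * star w = s * ((1 - g) * star w) := by rw [hc1 s, mul_assoc]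
      _ = 0 := by rw [w1g', mul_zero]
  have t33 : (1 - g) * s * ((1 - g) * s) = (1 - g) * s := by
    calc (1 - g) * s * ((1 - g) * s) = (1 - g) * (s * (1 - g)) * s := by simp only [mul_assoc]
      _ = (1 - g) * ((1 - g) * s) * s := by rw [← hc1 s]
      _ = (1 - g) * (1 - g) * (s * s) := by simp only [mul_assoc]
      _ = (1 - g) * s := by rw [hgg1, hs.2]
  rw [hstar] at huu
  simp only [add_mul, mul_add, t11, t12, t13, t21, t23, t31, t32, t33, zero_add, add_zero] at huu
  have h3 : w * star w = s - g * (v * star v) - (1 - g) * s := by
    have h4 : w * star w = (g * (v * star v) + w * star w + (1 - g) * s) - g * (v * star v) -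
        (1 - g) * s := by abel
    rwa [huu] at h4
  rw [h3, sub_mul, one_mul, mul_sub]
  abel

end CancP

open CancP

theorem prove6_canc (h : W_comp.{u}) : W_canc.{u} := by
  intro A _ hW s hs hF v hv hsv hvs
  have hPI : v * star v * v = v := hv
  have hPI' : star v * v * star v = star v := by
    have := congrArg star hPI
    simpa [star_mul, mul_assoc] using this
  have hsv' : star v * s = star v := by
    have := congrArg star hsv
    simpa [star_mul, hs.1] using this
  have hvs' : s * star v = star v := by
    have := congrArg star hvs
    simpa [star_mul, hs.1] using this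
  have hse : s * (star v * v) = star v * v := by rw [← mul_assoc, hvs']
  have hes : star v * v * s = star v * v := by rw [mul_assoc, hvs]
  have hsf : s * (v * star v) = v * star v := by rw [← mul_assoc, hsv]
  have hfs : v * star v * s = v * star v := by rw [mul_assoc, hsv']
  have hee : star v * v * (star v * v) = star v * v := by rw [← mul_assoc, hPI']
  have hff : v * star v * (v * star v) = v * star v := by rw [← mul_assoc, hPI]
  have hp1 : Prj (s - star v * v) := by
    constructor
    · rw [star_sub, hs.1, star_mul, star_star]
    · rw [sub_mul, mul_sub, mul_sub, hs.2, hse, hes, hee]; abel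
  have hp2 : Prj (s - v * star v) := by
    constructor
    · rw [star_sub, hs.1, star_mul, star_star]
    · rw [sub_mul, mul_sub, mul_sub, hs.2, hsf, hfs, hff]; abel
  obtain ⟨g, hg, ⟨w1, hw1, hw1'⟩, ⟨w2, hw2, hw2'⟩⟩ := h A hW _ _ hp1 hp2
  have hg' : CPrj (1 - g) := by
    obtain ⟨⟨hgs, hgg⟩, hgc⟩ := hg
    refine ⟨⟨by rw [star_sub, star_one, hgs], ?_⟩, ?_⟩
    · rw [mul_sub, mul_one, sub_mul, one_mul, hgg, sub_self, sub_zero]
    · intro a; rw [sub_mul, mul_sub, one_mul, mul_one, hgc]
  have k1 : w1 * star w1 = g * (s - v * star v) :=
    key hs hF hv hsv hvs hg hw1 hw1'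
  have hvPI : PIs (star v) := by
    show star v * star (star v) * star v = star v
    rw [star_star]; exact hPI'
  have k2 : w2 * star w2 = (1 - g) * (s - star v * star (star v)) := by
    apply key hs hF hvPI hvs' hsv' hg'
    · rw [star_star]; exact hw2
    · rw [star_star]; exact hw2'
  rw [star_star] at k2
  obtain ⟨⟨hgs, hgg⟩, hgc⟩ := hg
  have hg1 : (1 - g) * g = 0 := by rw [sub_mul, one_mul, hgg, sub_self]
  have hg1' : g * (1 - g) = 0 := by rw [mul_sub, mul_one, hgg, sub_self]
  have g1 : g * w1 = w1 := by
    calc g * w1 = g * (g * (s - v * star v) * w1) := by rw [hw1']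
      _ = g * g * (s - v * star v) * w1 := by simp only [mul_assoc]
      _ = w1 := by rw [hgg, hw1']
  have g2 : (1 - g) * w2 = w2 := by
    calc (1 - g) * w2 = (1 - g) * ((1 - g) * (s - star v * v) * w2) := by rw [hw2']
      _ = (1 - g) * (1 - g) * (s - star v * v) * w2 := by simp only [mul_assoc]
      _ = w2 := by rw [hg'.1.2, hw2']
  have c12 : w1 * w2 = 0 := by
    calc w1 * w2 = (g * w1) * ((1 - g) * w2) := by rw [g1, g2]
      _ = g * (w1 * (1 - g)) * w2 := by simp only [mul_assoc]
      _ = g * ((1 - g) * w1) * w2 := by rw [← hg'.2 w1]
      _ = g * (1 - g) * w1 * w2 := by simp only [mul_assoc]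
      _ = 0 := by rw [hg1']; simp
  have c21 : w2 * w1 = 0 := by
    calc w2 * w1 = ((1 - g) * w2) * (g * w1) := by rw [g1, g2]
      _ = (1 - g) * (w2 * g) * w1 := by simp only [mul_assoc]
      _ = (1 - g) * (g * w2) * w1 := by rw [← hgc w2]
      _ = (1 - g) * g * w2 * w1 := by simp only [mul_assoc]
      _ = 0 := by rw [hg1]; simp
  have c12' : star w2 * star w1 = 0 := by rw [← star_mul, c12, star_zero]
  have c21' : star w1 * star w2 = 0 := by rw [← star_mul, c21, star_zero]
  refine ⟨w1 + star w2, ?_, ?_⟩
  · rw [star_add, star_star, add_mul, mul_add, mul_add, c21, c21', hw1, k2, sub_mul, one_mul]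
    abel
  · rw [star_add, star_star, add_mul, mul_add, mul_add, c12, c12', k1, hw2, sub_mul, one_mul]
    abel

end H759R2.Kad
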