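import Mathlib
import Pool.Agent.H759R2.Kad.Props7

open scoped ComplexOrder InnerProductSpace ComplexConjugate
open Finset

noncomputable section

namespace H759R2.Kad

universe u v

theorem prove7_trcb (h1 : K_final.{u, v}) (h2 : Q_comb.{u, v}) (h3 : Q_ctr.{u})
    (h4 : Q_cor.{u}) : Q_trcb.{u, v} := by
  intro F _ _ _ hF τ hτ H _ _ _ w hw c hc hb m
  rcases Nat.eq_zero_or_pos m with hm | hm
  · subst hm
    intro Y
    have h0 : amp w (Fin 0) Y = 0 := by
      ext ξ i
      exact i.elim0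
    rw [h0, norm_zero]
    positivity
  obtain ⟨V, P, hV, hS, hD⟩ := hF (25920 * (2 * m) ^ 11)
  obtain ⟨N, _, j, hj⟩ := h4 F P hV.pr
  letI : PartialOrder N := CStarAlgebra.spectralOrder N
  letI : StarOrderedRing N := CStarAlgebra.spectralOrderedRing N
  obtain ⟨τ', hτ'⟩ := h3 F τ hτ _ V P hV hS N j hj
  obtain ⟨hd, ho⟩ := hD N j hj τ' hτ'
  have h := h2 F _ V P hV hS N j hj m c (216 * c ^ 23) hc (by positivity)
    (fun H' _ _ _ w' hw' hb' => h1 N τ' hτ' hd ho H' _ (2 * m) (by omega) (by omega) w' hw' c hc hb')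
    H w hw hb
  have e : 2 * c ^ 2 * (216 * c ^ 23) = 432 * c ^ 25 := by ring
  rw [e] at h
  exact h

end H759R2.Kad
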